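import Mathlib
import Pool.Agent.H990R2.SF.PWAbs

/-! Task B2: splitting a sum over `Sym2 V` supported on the pairs which meet `{c, d}`. -/

namespace H990SF

open Finset

theorem pw_B2 {V : Type*} [Fintype V] [DecidableEq V] : PW_B2 V := by
  intro c d f hcd h0 hc hd
  have hinj : ∀ a : V, Function.Injective (fun v : V => s(a, v)) := by
    intro a v w h
    exact Sym2.congr_right.1 h
  have hS : ∑ e : Sym2 V, f e
      = ∑ e ∈ (((univ \ {c, d} : Finset V).image (fun v => s(c, v))) ∪
          ((univ \ {c, d} : Finset V).image (fun v => s(d, v)))) ∪ {s(c, d)}, f e := by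
    symm
    apply Finset.sum_subset (subset_univ _)
    intro e _ he
    induction e using Sym2.ind with
    | _ x y =>
      simp only [mem_union, mem_image, mem_sdiff, mem_univ, true_and, mem_insert, mem_singleton,
        not_or, not_exists, not_and] at he
      obtain ⟨⟨h1, h2⟩, h3⟩ := he
      by_cases hcx : c = x
      · subst hcx
        by_cases hy : c = y
        · subst hy; exact hc
        · by_cases hy' : d = y
          · subst hy'; exact absurd rfl h3
          · exact absurd rfl (h1 y ⟨Ne.symm hy, Ne.symm hy'⟩)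
      by_cases hcy : c = y
      · subst hcy
        by_cases hx' : d = x
        · subst hx'
          exact absurd Sym2.eq_swap h3
        · exact absurd Sym2.eq_swap (h1 x ⟨Ne.symm hcx, Ne.symm hx'⟩)
      by_cases hdx : d = x
      · subst hdx
        by_cases hy : d = y
        · subst hy; exact hd
        · exact absurd rfl (h2 y ⟨Ne.symm hcy, Ne.symm hy⟩)
      by_cases hdy : d = y
      · subst hdy
        exact absurd Sym2.eq_swap (h2 x ⟨Ne.symm hcx, Ne.symm hdx⟩)
      · apply h0
        · rw [Sym2.mem_iff]; rintro (h | h)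
          · exact hcx h
          · exact hcy h
        · rw [Sym2.mem_iff]; rintro (h | h)
          · exact hdx h
          · exact hdy h
  rw [hS, Finset.sum_union, Finset.sum_union, Finset.sum_image, Finset.sum_image,
    Finset.sum_singleton, Finset.sum_add_distrib]
  · exact fun _ _ _ _ h => hinj d h
  · exact fun _ _ _ _ h => hinj c h
  · rw [Finset.disjoint_left]
    intro e he he'
    simp only [mem_image, mem_sdiff, mem_univ, true_and, mem_insert, mem_singleton,
        not_or] at he he'
    obtain ⟨v, ⟨hv1, hv2⟩, rfl⟩ := he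
    obtain ⟨w, ⟨hw1, hw2⟩, h⟩ := he'
    rw [Sym2.eq_iff] at h
    rcases h with ⟨h, _⟩ | ⟨h, _⟩
    · exact hcd h.symm
    · exact hv2 h.symm
  · rw [Finset.disjoint_singleton_right]
    intro h
    simp only [mem_union, mem_image, mem_sdiff, mem_univ, true_and, mem_insert, mem_singleton,
        not_or] at h
    rcases h with ⟨v, ⟨hv1, hv2⟩, h⟩ | ⟨v, ⟨hv1, hv2⟩, h⟩
    · rw [Sym2.eq_iff] at h
      rcases h with ⟨_, h⟩ | ⟨h, _⟩
      · exact hv2 h
      · exact hcd h
    · rw [Sym2.eq_iff] at h
      rcases h with ⟨h, _⟩ | ⟨_, h⟩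
      · exact hcd h.symm
      · exact hv1 h

end H990SF
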